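import Pool.Agent.Lib.MP_a55e6f_al.Uni.Interfaces
import Pool.Agent.Lib.MP_a55e6f_al.Uni.Basic
import Pool.Agent.Lib.MP_a55e6f_al.Uni.H50.LLAD

/-!
Module DBTH of MP_a55e6f_al: the double of an enveloping pair, and the map `Θ`.
-/

set_option autoImplicit false

universe u

attribute [local instance 100] LieRing.ofAssociativeRing

namespace Pool.Agent.A55u.H50

open scoped Classical

section main
variable {k Y : Type u} [Field k]

theorem coeff_one_mul {x : BA k Y} (hx : x.coeff 1 = 0) (b : BA k Y) : (x * b).coeff 1 = 0 := by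
  by_contra h
  obtain ⟨u, v, hu, _, huv⟩ := coeff_mul_ne h
  have : u = 1 := by
    have h1 := congrArg FreeMonoid.toList huv
    rw [FreeMonoid.toList_mul, FreeMonoid.toList_one, List.append_eq_nil_iff] at h1
    exact FreeMonoid.toList.injective h1.1
  rw [this] at hu
  exact hu hx

theorem jA_letter (y : Y) : jA k Y (letter k y) = letter k (Sum.inl y) := ev_letter _ y

theorem thA_letter (Y' : Set Y) (y : Y) : thA k Y' (letter k y) = if y ∈ Y' then
    letter k (Sum.inl y) else letter k (Sum.inl y) + letter k (Sum.inr y) := ev_letter _ y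

/-- the algebra map `y ↦ s y`, `z_y ↦ t y` -/
noncomputable def evs {Q : Type u} [Ring Q] [Algebra k Q] (s t : Y → Q) : BA k Y →ₐ[k] Q :=
  ev (Sum.elim s t)

theorem evs_jA {Q : Type u} [Ring Q] [Algebra k Q] (F : FA k Y →ₐ[k] Q) (t : Y → Q) (a : FA k Y) :
    evs (fun y => F (letter k y)) t (jA k Y a) = F a := by
  have : (evs (fun y => F (letter k y)) t).comp (jA k Y) = F := by
    apply algHom_ext_letter
    intro y
    rw [AlgHom.comp_apply, jA_letter, evs, ev_letter]
    rfl
  exact DFunLike.congr_fun this a

theorem jA_injective : Function.Injective (jA k Y) := by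
  intro a b h
  have h1 := congrArg (evs (fun y => AlgHom.id k (FA k Y) (letter k y)) (fun _ => 0)) h
  rw [evs_jA, evs_jA] at h1
  exact h1

theorem hom_jA (a : FA k Y) : Hom zd 0 (jA k Y a) := by
  let S : Subalgebra k (BA k Y) :=
    { carrier := {b | Hom zd 0 b}
      mul_mem' := by
        intro a b ha hb
        have := Hom.mul isAdd_zd ha hb
        exact this
      one_mem' := hom_one isAdd_zd
      add_mem' := by
        intro a b ha hb
        exact Hom.add ha hb
      zero_mem' := hom_zero _ _
      algebraMap_mem' := by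
        intro r
        rw [Algebra.algebraMap_eq_smul_one]
        exact Hom.smul r (hom_one isAdd_zd) }
  have : jA k Y a ∈ S := by
    apply ev_mem_of_mem
    intro y
    have := hom_single (k := k) (z := zd) (w := FreeMonoid.of (Sum.inl y : Y ⊕ Y)) 1
    rw [zd_inl] at this
    exact this
  exact this

/-- `comp zd 0` is multiplicative -/
theorem comp_zero_mul (a b : BA k Y) : comp zd 0 (a * b) = comp zd 0 a * comp zd 0 b := by
  rw [comp_mul_antidiagonal zd_add]
  simp

theorem comp_thA (Y' : Set Y) (a : FA k Y) : comp zd 0 (thA k Y' a) = jA k Y a := by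
  have hone : comp zd 0 (1 : BA k Y) = 1 := (hom_one isAdd_zd).comp_eq
  let P : BA k Y →ₐ[k] BA k Y :=
    AlgHom.ofLinearMap (comp zd 0) hone comp_zero_mul
  have : P.comp (thA k Y') = jA k Y := by
    apply algHom_ext_letter
    intro y
    rw [AlgHom.comp_apply, thA_letter, jA_letter]
    show comp zd 0 _ = _
    have e1 : comp zd 0 (letter k (Sum.inl y) : BA k Y) = letter k (Sum.inl y) := by
      rw [letter_eq_single, comp_single, if_pos (zd_inl y)]
    have e2 : comp zd 0 (letter k (Sum.inr y) : BA k Y) = 0 := by
      rw [letter_eq_single, comp_single, if_neg]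
      rw [zd_inr]
      exact one_ne_zero
    split_ifs
    · exact e1
    · rw [map_add, e1, e2, add_zero]
  exact DFunLike.congr_fun this a

theorem thA_eq_iff (Y' : Set Y) (a : FA k Y) : thA k Y' a = jA k Y a ↔ a ∈ subA k Y' := by
  constructor
  · intro h
    -- apply `y ↦ y`, `z_y ↦ -y`
    let R : BA k Y →ₐ[k] FA k Y := evs (fun y => letter k y) (fun y => - letter k y)
    have h1 : R (jA k Y a) = a := evs_jA (AlgHom.id k (FA k Y)) _ a
    have h2 : R (thA k Y' a) ∈ subA k Y' := by
      have h3 : R (thA k Y' a) = ev (fun y => R (if y ∈ Y' then letter k (Sum.inl y)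
          else letter k (Sum.inl y) + letter k (Sum.inr y))) a := map_ev R _ a
      rw [h3]
      apply ev_mem_of_mem
      intro y
      have e1 : R (letter k (Sum.inl y)) = letter k y := ev_letter _ _
      have e2 : R (letter k (Sum.inr y)) = - letter k y := ev_letter _ _
      split_ifs with hy
      · rw [e1]
        exact Algebra.subset_adjoin ⟨y, hy, rfl⟩
      · rw [map_add, e1, e2, add_neg_cancel]
        exact zero_mem _
    rw [h, h1] at h2
    exact h2
  · intro h
    let S : Subalgebra k (FA k Y) := AlgHom.equalizer (thA k Y') (jA k Y)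
    have : subA k Y' ≤ S := by
      apply Algebra.adjoin_le
      rintro _ ⟨y, hy, rfl⟩
      show thA k Y' (letter k y) = jA k Y (letter k y)
      rw [thA_letter, jA_letter, if_pos hy]
    exact this h

/-- TH -/
theorem theta : ThetaStatement.{u} := by
  intro k Y _ Y'
  exact ⟨jA_injective, hom_jA, comp_thA Y', thA_eq_iff Y'⟩

theorem jA_mem_bigL (L : LieSubalgebra k (FA k Y)) {l : FA k Y} (hl : l ∈ L) :
    jA k Y l ∈ bigL L := LieSubalgebra.subset_lieSpan (Or.inl ⟨l, hl, rfl⟩)

theorem z_mem_bigL (L : LieSubalgebra k (FA k Y)) (y : Y) :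
    letter k (Sum.inr y) ∈ bigL L := LieSubalgebra.subset_lieSpan (Or.inr ⟨y, rfl⟩)

theorem gen_bigL (L : LieSubalgebra k (FA k Y)) (hL : Algebra.adjoin k (L : Set (FA k Y)) = ⊤) :
    Algebra.adjoin k (bigL L : Set (BA k Y)) = ⊤ := by
  have hj : ∀ a, jA k Y a ∈ Algebra.adjoin k (bigL L : Set (BA k Y)) := by
    intro a
    have h1 : a ∈ Algebra.adjoin k (L : Set (FA k Y)) := by rw [hL]; trivial
    have h2 : jA k Y a ∈ (Algebra.adjoin k (L : Set (FA k Y))).map (jA k Y) := ⟨a, h1, rfl⟩
    rw [AlgHom.map_adjoin] at h2
    refine Algebra.adjoin_mono ?_ h2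
    rintro _ ⟨l, hl, rfl⟩
    exact jA_mem_bigL L hl
  rw [eq_top_iff, ← adjoin_letters]
  apply Algebra.adjoin_le
  rintro _ ⟨y, rfl⟩
  rcases y with y | y
  · rw [← jA_letter]; exact hj _
  · exact Algebra.subset_adjoin (z_mem_bigL L y)

theorem graded_bigL (L : LieSubalgebra k (FA k Y)) : Graded zd (bigL L) := by
  intro n g hg
  let S : LieSubalgebra k (BA k Y) :=
    { carrier := {b | ∀ n, comp zd n b ∈ bigL L}
      add_mem' := by
        intro a b ha hb n
        rw [map_add]
        exact add_mem (ha n) (hb n)
      zero_mem' := by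
        intro n
        rw [map_zero]
        exact zero_mem _
      smul_mem' := by
        intro r a ha n
        rw [map_smul]
        exact (bigL L).smul_mem r (ha n)
      lie_mem' := by
        intro a b ha hb n
        rw [LieRing.of_associative_ring_bracket, map_sub,
          comp_mul_antidiagonal zd_add, comp_mul_antidiagonal zd_add]
        have h3 : ∑ p ∈ Finset.HasAntidiagonal.antidiagonal n, comp zd p.1 b * comp zd p.2 a =
            ∑ p ∈ Finset.HasAntidiagonal.antidiagonal n, comp zd p.2 b * comp zd p.1 a := by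
          rw [← Finset.Nat.sum_antidiagonal_swap]
          rfl
        rw [h3, ← Finset.sum_sub_distrib]
        refine Submodule.sum_mem (bigL L).toSubmodule ?_
        intro p _
        have := (bigL L).lie_mem (ha p.1) (hb p.2)
        rw [LieRing.of_associative_ring_bracket] at this
        exact this }
  have hS : bigL L ≤ S := by
    unfold bigL
    rw [LieSubalgebra.lieSpan_le]
    rintro _ (⟨l, hl, rfl⟩ | ⟨y, rfl⟩) n
    · by_cases hn : n = 0
      · subst hn
        rw [(hom_jA l).comp_eq]
        exact jA_mem_bigL L hl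
      · rw [(hom_jA l).comp_ne (Ne.symm hn)]
        exact zero_mem _
    · show comp zd n (letter k (Sum.inr y) : BA k Y) ∈ bigL L
      rw [letter_eq_single, comp_single]
      split_ifs
      · exact z_mem_bigL L y
      · exact zero_mem _
  exact hS hg n

theorem aug_bigL (L : LieSubalgebra k (FA k Y)) (hL : ∀ l ∈ L, l.coeff 1 = 0) :
    ∀ g ∈ bigL L, g.coeff 1 = 0 := by
  intro g hg
  let S : LieSubalgebra k (BA k Y) :=
    { carrier := {b | b.coeff 1 = 0}
      add_mem' := by
        intro a b ha hb
        show (a + b).coeff 1 = 0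
        rw [MonoidAlgebra.coeff_add, Finsupp.add_apply, show a.coeff 1 = 0 from ha,
          show b.coeff 1 = 0 from hb, add_zero]
      zero_mem' := by
        show (0 : BA k Y).coeff 1 = 0
        simp
      smul_mem' := by
        intro r a ha
        show (r • a).coeff 1 = 0
        rw [MonoidAlgebra.coeff_smul, Finsupp.smul_apply, show a.coeff 1 = 0 from ha, smul_zero]
      lie_mem' := by
        intro a b ha hb
        show (⁅a, b⁆ : BA k Y).coeff 1 = 0
        rw [LieRing.of_associative_ring_bracket, MonoidAlgebra.coeff_sub, Finsupp.sub_apply,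
          coeff_mul_one hb, coeff_mul_one ha, sub_zero] }
  have hS : bigL L ≤ S := by
    unfold bigL
    rw [LieSubalgebra.lieSpan_le]
    rintro _ (⟨l, hl, rfl⟩ | ⟨y, rfl⟩)
    · show (jA k Y l).coeff 1 = 0
      -- the augmentation of `k<Y ⊔ Z>` composed with `jA` is the augmentation of `k<Y>`
      let eB : BA k Y →ₐ[k] k := evs (fun _ => 0) (fun _ => 0)
      let eA : FA k Y →ₐ[k] k := ev (fun _ => 0)
      have hAB : ∀ {X : Type u} (b : FA k X), ev (k := k) (fun _ : X => (0 : k)) b = b.coeff 1 := by
        intro X b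
        induction b using MonoidAlgebra.induction_linear with
        | zero => simp
        | add f g hf hg => rw [map_add, hf, hg, MonoidAlgebra.coeff_add, Finsupp.add_apply]
        | single w r =>
          have hsing : (MonoidAlgebra.single w r : FA k X) = r • MonoidAlgebra.of k _ w := by
            rw [MonoidAlgebra.of_apply, MonoidAlgebra.smul_single, smul_eq_mul, mul_one]
          rw [hsing, map_smul, MonoidAlgebra.coeff_smul, Finsupp.smul_apply]
          congr 1
          induction w using FreeMonoid.inductionOn' with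
          | one => 
            rw [map_one, map_one]
            simp
          | of_mul i w ih =>
            rw [map_mul, map_mul]
            have : ev (k := k) (fun _ : X => (0 : k)) (MonoidAlgebra.of k _ (FreeMonoid.of i)) = 0 :=
              ev_letter (fun _ : X => (0 : k)) i
            rw [this, zero_mul]
            rw [MonoidAlgebra.of_apply, MonoidAlgebra.of_apply, MonoidAlgebra.single_mul_single,
              MonoidAlgebra.coeff_single, Finsupp.single_apply, if_neg]
            intro h
            have h1 := congrArg FreeMonoid.length h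
            rw [FreeMonoid.length_mul] at h1
            simp at h1
      rw [← hAB]
      have h2 : ev (k := k) (fun _ : Y ⊕ Y => (0 : k)) (jA k Y l) = ev (fun _ => 0) l := by
        rw [jA, map_ev]
        congr 1
        congr 1
        funext y
        exact ev_letter _ _
      rw [h2, hAB]
      exact hL l hl
    · show (letter k (Sum.inr y) : BA k Y).coeff 1 = 0
      rw [letter_eq_single, MonoidAlgebra.coeff_single, Finsupp.single_apply, if_neg]
      intro h
      have h1 := congrArg FreeMonoid.length h
      simp at h1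
  exact hS hg

theorem ext_bigL (L : LieSubalgebra k (FA k Y)) (hL : EnvPair L) (Q : Type u) [Ring Q] [Algebra k Q]
    (f : bigL L →ₗ⁅k⁆ Q) : ∃ F : BA k Y →ₐ[k] Q, ∀ g : bigL L, F (g : BA k Y) = f g := by
  let fL : L →ₗ⁅k⁆ Q :=
    { toFun := fun l => f ⟨jA k Y l, jA_mem_bigL L l.2⟩
      map_add' := by
        intro a b
        rw [← map_add]
        congr 1
        ext1
        simp
      map_smul' := by
        intro r a
        rw [RingHom.id_apply, ← map_smul]
        congr 1
        ext1
        simp
      map_lie' := by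
        intro a b
        show f _ = ⁅f _, f _⁆
        rw [← LieHom.map_lie]
        congr 1
        ext1
        have hj : jA k Y ⁅(a : FA k Y), (b : FA k Y)⁆ = ⁅jA k Y a, jA k Y b⁆ := by
          rw [LieRing.of_associative_ring_bracket, map_sub, map_mul, map_mul,
            LieRing.of_associative_ring_bracket]
        exact hj }
  obtain ⟨FL, hFL⟩ := hL.ext Q fL
  let F : BA k Y →ₐ[k] Q := evs (fun y => FL (letter k y)) (fun y => f ⟨_, z_mem_bigL L y⟩)
  refine ⟨F, ?_⟩
  rintro ⟨g, hg⟩
  show F g = f ⟨g, hg⟩
  unfold bigL at hg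
  induction hg using LieSubalgebra.lieSpan_induction with
  | mem x hx =>
    rcases hx with ⟨l, hl, rfl⟩ | ⟨y, rfl⟩
    · have h1 : F (jA k Y l) = FL l := evs_jA FL _ l
      rw [h1]
      exact hFL ⟨l, hl⟩
    · exact ev_letter _ _
  | zero =>
    rw [map_zero]
    exact (map_zero f).symm
  | add x y hx hy h1 h2 =>
    rw [map_add, h1, h2, ← map_add]
    rfl
  | smul r x hx h1 =>
    rw [map_smul, h1, ← map_smul]
    rfl
  | lie x y hx hy h1 h2 =>
    have hF : F ⁅x, y⁆ = ⁅F x, F y⁆ := by
      rw [LieRing.of_associative_ring_bracket, map_sub, map_mul, map_mul,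
        LieRing.of_associative_ring_bracket]
    have hf : f ⟨⁅x, y⁆, LieSubalgebra.lie_mem _ hx hy⟩ = ⁅f ⟨x, hx⟩, f ⟨y, hy⟩⁆ := by
      rw [← LieHom.map_lie]
      rfl
    rw [h1, h2] at hF
    exact hF.trans hf.symm

end main

/-- DB -/
theorem double : DoubleStatement.{u} := by
  intro k Y _ L hL h1
  refine ⟨⟨⟨gen_bigL L hL.gen, ?_⟩, graded_bigL L, aug_bigL L h1⟩, fun l hl => jA_mem_bigL L hl⟩
  intro Q _ _ f
  exact ext_bigL L hL Q f

end Pool.Agent.A55u.H50
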