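import Pool.Agent.Lib.MP_a55e6f_al.Uni.Interfaces

/-!
Module LF of MP_a55e6f_al: independent leading forms give a free family.
-/

set_option autoImplicit false

universe u

attribute [local instance 100] LieRing.ofAssociativeRing

namespace Pool.Agent.A55u.H50

open scoped Classical

section general
variable {k M : Type u} [Field k]

/-- all words of `b` have degree at most `n` -/
def Le (z : M → ℕ) (n : ℕ) (b : MonoidAlgebra k M) : Prop := ∀ w, b.coeff w ≠ 0 → z w ≤ n

theorem comp_coeff (z : M → ℕ) (n : ℕ) (b : MonoidAlgebra k M) (w : M) :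
    (comp z n b).coeff w = if z w = n then b.coeff w else 0 := by
  unfold comp
  rw [proj_coeff]
  split_ifs <;> rfl

theorem comp_of_hom {z : M → ℕ} {n : ℕ} {b : MonoidAlgebra k M} (h : Hom z n b) :
    comp z n b = b := by
  apply MonoidAlgebra.coeff_injective
  ext w
  rw [comp_coeff]
  split_ifs with hw
  · rfl
  · by_contra hne
    exact hw (h w (Ne.symm hne))

theorem comp_eq_zero {z : M → ℕ} {n : ℕ} {b : MonoidAlgebra k M}
    (h : ∀ w, b.coeff w ≠ 0 → z w ≠ n) : comp z n b = 0 := by
  apply MonoidAlgebra.coeff_injective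
  ext w
  rw [comp_coeff]
  split_ifs with hw
  · by_contra hne
    exact h w hne hw
  · rfl

theorem hom_comp (z : M → ℕ) (n : ℕ) (b : MonoidAlgebra k M) : Hom z n (comp z n b) := by
  intro w hw
  rw [comp_coeff] at hw
  by_contra h
  rw [if_neg h] at hw
  exact hw rfl

theorem Le.sub_comp {z : M → ℕ} {n : ℕ} {b : MonoidAlgebra k M} (h : Le z n b) (w : M)
    (hw : (b - comp z n b).coeff w ≠ 0) : z w < n := by
  rw [MonoidAlgebra.coeff_sub, Finsupp.sub_apply, comp_coeff] at hw
  by_cases h1 : z w = n
  · rw [if_pos h1, sub_self] at hw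
    exact absurd rfl hw
  · rw [if_neg h1, sub_zero] at hw
    exact lt_of_le_of_ne (h w hw) h1

variable [Monoid M]

theorem coeff_mul_ne {a b : MonoidAlgebra k M} {w : M} (h : (a * b).coeff w ≠ 0) :
    ∃ u v, a.coeff u ≠ 0 ∧ b.coeff v ≠ 0 ∧ u * v = w := by
  rw [MonoidAlgebra.coeff_mul] at h
  rw [Finsupp.sum] at h
  obtain ⟨u, hu, hu'⟩ := Finset.exists_ne_zero_of_sum_ne_zero h
  rw [Finsupp.sum] at hu'
  obtain ⟨v, hv, hv'⟩ := Finset.exists_ne_zero_of_sum_ne_zero hu'
  refine ⟨u, v, Finsupp.mem_support_iff.1 hu, Finsupp.mem_support_iff.1 hv, ?_⟩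
  by_contra hne
  rw [if_neg hne] at hv'
  exact hv' rfl

theorem Le.mul {z : M → ℕ} (hz : IsAdd z) {n m : ℕ} {a b : MonoidAlgebra k M}
    (ha : Le z n a) (hb : Le z m b) : Le z (n + m) (a * b) := by
  intro w hw
  obtain ⟨u, v, hu, hv, rfl⟩ := coeff_mul_ne hw
  rw [hz.map_mul]
  exact Nat.add_le_add (ha u hu) (hb v hv)

theorem comp_mul {z : M → ℕ} (hz : IsAdd z) {n m : ℕ} {a b : MonoidAlgebra k M}
    (ha : Le z n a) (hb : Le z m b) : comp z (n + m) (a * b) = comp z n a * comp z m b := by
  have h1 : a * b = comp z n a * comp z m b + (comp z n a * (b - comp z m b) +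
      (a - comp z n a) * b) := by
    rw [mul_sub, sub_mul]; abel
  have h2 : comp z (n + m) (comp z n a * comp z m b) = comp z n a * comp z m b := by
    apply comp_of_hom
    intro w hw
    obtain ⟨u, v, hu, hv, rfl⟩ := coeff_mul_ne hw
    rw [hz.map_mul, hom_comp z n a u hu, hom_comp z m b v hv]
  have h3 : comp z (n + m) (comp z n a * (b - comp z m b)) = 0 := by
    apply comp_eq_zero
    intro w hw
    obtain ⟨u, v, hu, hv, rfl⟩ := coeff_mul_ne hw
    rw [hz.map_mul, hom_comp z n a u hu]
    have := hb.sub_comp v hv
    omega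
  have h4 : comp z (n + m) ((a - comp z n a) * b) = 0 := by
    apply comp_eq_zero
    intro w hw
    obtain ⟨u, v, hu, hv, rfl⟩ := coeff_mul_ne hw
    rw [hz.map_mul]
    have := ha.sub_comp u hu
    have := hb v hv
    omega
  rw [h1, map_add, map_add, h2, h3, h4, add_zero, add_zero]

theorem comp_degOf_ne {z : M → ℕ} {b : MonoidAlgebra k M} (hb : b ≠ 0) :
    comp z (degOf z b) b ≠ 0 := by
  have hs : b.coeff.support.Nonempty := by
    rw [Finsupp.support_nonempty_iff]
    simpa using hb
  obtain ⟨w, hw, hw'⟩ := Finset.exists_mem_eq_sup b.coeff.support hs z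
  intro h
  have h1 : (comp z (degOf z b) b).coeff w = b.coeff w := by
    rw [comp_coeff, if_pos]
    exact hw'.symm
  rw [h] at h1
  exact (Finsupp.mem_support_iff.1 hw) (by simpa using h1.symm)

omit [Monoid M] in
theorem le_degOf (z : M → ℕ) (b : MonoidAlgebra k M) : Le z (degOf z b) b := by
  intro w hw
  exact Finset.le_sup (f := z) (Finsupp.mem_support_iff.2 hw)

end general

theorem zd_add {Y : Type u} : IsAdd (zd : FreeMonoid (Y ⊕ Y) → ℕ) where
  map_one := by simp [zd]
  map_mul a b := by simp [zd, FreeMonoid.toList_mul, List.countP_append]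

section main
variable {k Y I : Type u} [Field k]

theorem coeff_mul_one {x : BA k Y} (hx : x.coeff 1 = 0) (b : BA k Y) : (b * x).coeff 1 = 0 := by
  by_contra h
  obtain ⟨u, v, _, hv, huv⟩ := coeff_mul_ne h
  have : v = 1 := by
    have h1 := congrArg FreeMonoid.toList huv
    rw [FreeMonoid.toList_mul, FreeMonoid.toList_one, List.append_eq_nil_iff] at h1
    exact FreeMonoid.toList.injective h1.2
  rw [this] at hv
  exact hv hx

theorem indep {x : I → BA k Y} {v : I → ℕ} (hx : ∀ i, Le zd (v i) (x i))
    (h1 : ∀ i, (x i).coeff 1 = 0)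
    (hli : LinearIndependent (BA k Y) (fun i => comp zd (v i) (x i)))
    (c : k) (b : I →₀ BA k Y)
    (h : algebraMap k (BA k Y) c + b.sum (fun i r => r * x i) = 0) : c = 0 ∧ b = 0 := by
  have hc : c = 0 := by
    have h2 := congrArg (fun y : BA k Y => y.coeff 1) h
    simp only [MonoidAlgebra.coeff_add, Finsupp.add_apply, MonoidAlgebra.coeff_zero,
      Finsupp.coe_zero, Pi.zero_apply] at h2
    have h3 : (b.sum (fun i r => r * x i)).coeff 1 = 0 := by
      rw [Finsupp.sum, MonoidAlgebra.coeff_sum, Finsupp.finsetSum_apply]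
      exact Finset.sum_eq_zero (fun i _ => coeff_mul_one (h1 i) _)
    rw [h3, add_zero] at h2
    have h4 : (algebraMap k (BA k Y) c).coeff 1 = c := by
      simp [MonoidAlgebra.coe_algebraMap]
    rw [h4] at h2
    exact h2
  refine ⟨hc, ?_⟩
  rw [hc, map_zero, zero_add] at h
  by_contra hb
  have hs : b.support.Nonempty := Finsupp.support_nonempty_iff.2 hb
  set N := b.support.sup (fun i => degOf zd (b i) + v i) with hN
  have hle : ∀ i ∈ b.support, degOf zd (b i) + v i ≤ N := fun i hi =>
    Finset.le_sup (f := fun i => degOf zd (b i) + v i) hi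
  have hsum : ∑ i ∈ b.support, comp zd (N - v i) (b i) • comp zd (v i) (x i) = 0 := by
    have h2 := congrArg (comp zd N) h
    rw [Finsupp.sum, map_sum, map_zero] at h2
    rw [← h2]
    refine Finset.sum_congr rfl ?_
    intro i hi
    have h3 := hle i hi
    have h4 : N = (N - v i) + v i := by omega
    conv_rhs => rw [h4]
    rw [comp_mul zd_add (n := N - v i) (m := v i) _ (hx i), smul_eq_mul]
    · intro w hw
      have := le_degOf zd (b i) w hw
      omega
  have h5 := (linearIndependent_iff'.1 hli) b.support _ hsum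
  obtain ⟨i, hi, hi'⟩ := Finset.exists_mem_eq_sup b.support hs (fun i => degOf zd (b i) + v i)
  have h6 := h5 i hi
  have h7 : N - v i = degOf zd (b i) := by
    rw [hN, hi']; omega
  rw [h7] at h6
  exact comp_degOf_ne (Finsupp.mem_support_iff.1 hi) h6

theorem decomp (n : ℕ) (p : FA k I) (hp : ∀ w, p.coeff w ≠ 0 → w.length ≤ n + 1) :
    ∃ (c : k) (q : I →₀ FA k I),
      p = algebraMap k (FA k I) c + q.sum (fun i r => r * letter k i) ∧
      ∀ i w, (q i).coeff w ≠ 0 → w.length ≤ n := by
  set P : FA k I → Prop := fun p => ∃ (c : k) (q : I →₀ FA k I),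
      p = algebraMap k (FA k I) c + q.sum (fun i r => r * letter k i) ∧
      ∀ i w, (q i).coeff w ≠ 0 → w.length ≤ n with hP
  have hadd : ∀ a b, P a → P b → P (a + b) := by
    rintro a b ⟨c, q, rfl, hq⟩ ⟨c', q', rfl, hq'⟩
    refine ⟨c + c', q + q', ?_, ?_⟩
    · rw [Finsupp.sum_add_index' (fun i => by rw [zero_mul]) (fun i r r' => by rw [add_mul]), map_add]
      abel
    · intro i w hw
      rw [Finsupp.add_apply, MonoidAlgebra.coeff_add, Finsupp.add_apply] at hw
      by_cases h1 : (q i).coeff w = 0
      · rw [h1, zero_add] at hw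
        exact hq' i w hw
      · exact hq i w h1
  have h0 : P 0 := ⟨0, 0, by simp, by simp⟩
  have hs : ∀ w ∈ p.coeff.support, P (MonoidAlgebra.single w (p.coeff w)) := by
    intro w hw
    have hlen := hp w (Finsupp.mem_support_iff.1 hw)
    generalize p.coeff w = r
    rcases List.eq_nil_or_concat w.toList with h | ⟨l, i, h⟩
    · refine ⟨r, 0, ?_, by simp⟩
      have hw1 : w = 1 := FreeMonoid.toList.injective h
      rw [hw1]
      simp [MonoidAlgebra.coe_algebraMap]
    · have hw1 : w = FreeMonoid.ofList l * FreeMonoid.of i := by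
        apply FreeMonoid.toList.injective
        rw [h]
        simp [List.concat_eq_append]
      refine ⟨0, Finsupp.single i (MonoidAlgebra.single (FreeMonoid.ofList l) r), ?_, ?_⟩
      · rw [map_zero, zero_add, Finsupp.sum_single_index (by rw [zero_mul]), letter,
          MonoidAlgebra.of_apply, MonoidAlgebra.single_mul_single, mul_one, ← hw1]
      · intro j u hu
        have hlen' : w.length = l.length + 1 := by
          have := congrArg List.length h
          rw [List.length_concat] at this
          exact this
        by_cases hj : i = j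
        · subst hj
          rw [Finsupp.single_eq_same, MonoidAlgebra.coeff_single] at hu
          have hu1 : u = FreeMonoid.ofList l := by
            by_contra hne
            rw [Finsupp.single_apply, if_neg (Ne.symm hne)] at hu
            exact hu rfl
          rw [hu1]
          have : (FreeMonoid.ofList l).length = l.length := rfl
          omega
        · rw [Finsupp.single_eq_of_ne (Ne.symm hj)] at hu
          simp at hu
  have : P (∑ w ∈ p.coeff.support, MonoidAlgebra.single w (p.coeff w)) :=
    Finset.sum_induction _ P hadd h0 hs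
  have h2 : ∑ w ∈ p.coeff.support, MonoidAlgebra.single w (p.coeff w) = p := by
    have := MonoidAlgebra.sum_coeff_single p
    rwa [Finsupp.sum] at this
  rw [h2] at this
  exact this

theorem freeFam_of {x : I → BA k Y} {v : I → ℕ} (hx : ∀ i, Le zd (v i) (x i))
    (h1 : ∀ i, (x i).coeff 1 = 0)
    (hli : LinearIndependent (BA k Y) (fun i => comp zd (v i) (x i))) : FreeFam k x := by
  have key : ∀ (n : ℕ) (p : FA k I), (∀ w, p.coeff w ≠ 0 → w.length ≤ n) →
      ev (k := k) x p = 0 → p = 0 := by
    intro n
    induction n with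
    | zero =>
      intro p hp h0
      have hp1 : p = algebraMap k (FA k I) (p.coeff 1) := by
        apply MonoidAlgebra.coeff_injective
        ext w
        rw [MonoidAlgebra.coe_algebraMap]
        simp only [Function.comp_apply, Algebra.algebraMap_self, RingHom.id_apply,
          MonoidAlgebra.coeff_single]
        by_cases hw : w = 1
        · rw [hw, Finsupp.single_eq_same]
        · rw [Finsupp.single_eq_of_ne hw]
          by_contra hne
          have := hp w hne
          exact hw (FreeMonoid.length_eq_zero.1 (by omega))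
      rw [hp1] at h0 ⊢
      rw [AlgHom.commutes] at h0
      have := FaithfulSMul.algebraMap_injective k (BA k Y) (h0.trans (map_zero _).symm)
      rw [this, map_zero]
    | succ n ih =>
      intro p hp h0
      obtain ⟨c, q, hpq, hq⟩ := decomp n p hp
      have h2 : algebraMap k (BA k Y) c +
          (q.mapRange (ev (k := k) x) (map_zero _)).sum (fun i r => r * x i) = 0 := by
        rw [Finsupp.sum_mapRange_index (fun i => by rw [zero_mul])]
        rw [← h0, hpq, map_add, AlgHom.commutes, Finsupp.sum, Finsupp.sum, map_sum]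
        congr 1
        refine Finset.sum_congr rfl ?_
        intro i _
        rw [map_mul, ev_letter]
      obtain ⟨hc, hb⟩ := indep hx h1 hli c _ h2
      have hq0 : q = 0 := by
        ext1 i
        refine ih (q i) (hq i) ?_
        have := DFunLike.congr_fun hb i
        simpa using this
      rw [hpq, hc, hq0]
      simp
  intro p p' hpp
  have h3 : ev (k := k) x (p - p') = 0 := by rw [map_sub, hpp, sub_self]
  have h4 := key ((p - p').coeff.support.sup FreeMonoid.length) (p - p')
    (fun w hw => Finset.le_sup (f := FreeMonoid.length) (Finsupp.mem_support_iff.2 hw)) h3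
  exact sub_eq_zero.1 h4

/-- weight of a word -/
def wt (v : I → ℕ) (w : FreeMonoid I) : ℕ := (w.toList.map v).sum

theorem word_top {x : I → BA k Y} {v : I → ℕ} (hx : ∀ i, Le zd (v i) (x i)) (w : FreeMonoid I) :
    Le zd (wt v w) (ev (k := k) x (MonoidAlgebra.of k _ w)) ∧
    comp zd (wt v w) (ev (k := k) x (MonoidAlgebra.of k _ w)) =
      ev (k := k) (fun i => comp zd (v i) (x i)) (MonoidAlgebra.of k _ w) := by
  induction w using FreeMonoid.inductionOn' with
  | one =>
    have e1 : ∀ y : I → BA k Y, ev (k := k) y (MonoidAlgebra.of k (FreeMonoid I) 1) = 1 := by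
      intro y; rw [map_one, map_one]
    rw [e1, e1]
    have h1 : Hom (k := k) (zd : FreeMonoid (Y ⊕ Y) → ℕ) 0 (1 : BA k Y) := by
      intro w hw
      rw [MonoidAlgebra.one_def, MonoidAlgebra.coeff_single] at hw
      have : w = 1 := by
        by_contra hne
        rw [Finsupp.single_eq_of_ne hne] at hw
        exact hw rfl
      rw [this]; exact zd_add.map_one
    refine ⟨?_, ?_⟩
    · intro w hw
      rw [h1 w hw]; exact Nat.zero_le _
    · have : wt v 1 = 0 := by simp [wt]
      rw [this]
      exact comp_of_hom h1
  | of_mul i w ih =>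
    obtain ⟨ih1, ih2⟩ := ih
    have hw : wt v (FreeMonoid.of i * w) = v i + wt v w := by simp [wt]
    have hl : ∀ y : I → BA k Y, ev (k := k) y (MonoidAlgebra.of k _ (FreeMonoid.of i * w)) =
        y i * ev (k := k) y (MonoidAlgebra.of k _ w) := by
      intro y
      rw [map_mul, map_mul]
      congr 1
      exact ev_letter y i
    rw [hw, hl, hl]
    refine ⟨(hx i).mul zd_add ih1, ?_⟩
    rw [comp_mul zd_add (hx i) ih1, ih2]

theorem comp_ev {x : I → BA k Y} {v : I → ℕ} (hx : ∀ i, Le zd (v i) (x i)) (N : ℕ) (p : FA k I)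
    (hp : ∀ w, p.coeff w ≠ 0 → wt v w ≤ N) :
    comp zd N (ev (k := k) x p) =
      ev (k := k) (fun i => comp zd (v i) (x i)) (proj (fun w => wt v w = N) p) := by
  have h2 : ∑ w ∈ p.coeff.support, MonoidAlgebra.single w (p.coeff w) = p := by
    have := MonoidAlgebra.sum_coeff_single p
    rwa [Finsupp.sum] at this
  conv_lhs => rw [← h2]
  conv_rhs => rw [← h2]
  rw [map_sum, map_sum, map_sum, map_sum]
  refine Finset.sum_congr rfl ?_
  intro w hw
  have hwN := hp w (Finsupp.mem_support_iff.1 hw)
  generalize p.coeff w = r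
  have hsing : (MonoidAlgebra.single w r : FA k I) = r • MonoidAlgebra.of k _ w := by
    rw [MonoidAlgebra.of_apply, MonoidAlgebra.smul_single, smul_eq_mul, mul_one]
  obtain ⟨ht1, ht2⟩ := word_top hx w
  by_cases hw' : wt v w = N
  · have h3 : proj (fun w => wt v w = N) (MonoidAlgebra.single w r : FA k I) =
        MonoidAlgebra.single w r := by
      apply MonoidAlgebra.coeff_injective
      ext u
      rw [proj_coeff]
      split_ifs with hu
      · rfl
      · rw [MonoidAlgebra.coeff_single]
        by_contra hne
        have : u = w := by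
          by_contra hne'
          rw [Finsupp.single_eq_of_ne hne'] at hne
          exact hne rfl
        rw [this] at hu
        exact hu hw'
    rw [h3, hsing, map_smul, map_smul, map_smul, ← ht2, hw']
  · have h3 : proj (fun w => wt v w = N) (MonoidAlgebra.single w r : FA k I) = 0 := by
      apply MonoidAlgebra.coeff_injective
      ext u
      rw [proj_coeff]
      split_ifs with hu
      · rw [MonoidAlgebra.coeff_single]
        by_contra hne
        have : u = w := by
          by_contra hne'
          rw [Finsupp.single_eq_of_ne hne'] at hne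
          exact hne rfl
        rw [this] at hu
        exact hw' hu
      · rfl
    rw [h3, map_zero, hsing, map_smul, map_smul]
    rw [comp_eq_zero, smul_zero]
    intro u hu
    have := ht1 u hu
    omega

end main

/-- LF -/
theorem lf : LFStatement.{u} := by
  intro k Y I _ x v hx h1 hli
  have hx' : ∀ i, Le zd (v i) (x i) := hx
  refine ⟨freeFam_of hx' h1 hli, ?_⟩
  intro p hp
  have hwt : ∀ w, p.coeff w ≠ 0 → wt v w = 0 := by
    by_contra hcon
    push Not at hcon
    obtain ⟨w0, hw0, hw0'⟩ := hcon
    set N := p.coeff.support.sup (wt v) with hN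
    have hle : ∀ w, p.coeff w ≠ 0 → wt v w ≤ N := fun w hw =>
      Finset.le_sup (f := wt v) (Finsupp.mem_support_iff.2 hw)
    have hNpos : N ≠ 0 := by
      have := hle w0 hw0
      omega
    have h2 := comp_ev hx' N p hle
    have h3 : comp zd N (ev (k := k) x p) = 0 := by
      apply comp_eq_zero
      intro w hw
      rw [hp w hw]
      exact Ne.symm hNpos
    rw [h3] at h2
    have hfree : FreeFam k (fun i => comp zd (v i) (x i)) := by
      apply freeFam_of (v := v)
      · intro i w hw
        rw [hom_comp zd (v i) (x i) w hw]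
      · intro i
        rw [comp_coeff]
        split_ifs
        · exact h1 i
        · rfl
      · have : (fun i => comp zd (v i) (comp zd (v i) (x i))) = fun i => comp zd (v i) (x i) := by
          funext i
          exact comp_of_hom (hom_comp _ _ _)
        rw [this]
        exact hli
    have h4 : proj (fun w => wt v w = N) p = 0 := hfree (h2.symm.trans (map_zero _).symm)
    have hs : p.coeff.support.Nonempty := ⟨w0, Finsupp.mem_support_iff.2 hw0⟩
    obtain ⟨w, hw, hw'⟩ := Finset.exists_mem_eq_sup p.coeff.support hs (wt v)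
    have h5 : (proj (fun w => wt v w = N) p).coeff w = p.coeff w := by
      rw [proj_coeff, if_pos]
      exact hw'.symm
    rw [h4] at h5
    exact (Finsupp.mem_support_iff.1 hw) (by simpa using h5.symm)
  have h2 : ∑ w ∈ p.coeff.support, MonoidAlgebra.single w (p.coeff w) = p := by
    have := MonoidAlgebra.sum_coeff_single p
    rwa [Finsupp.sum] at this
  rw [← h2]
  refine Subalgebra.sum_mem _ ?_
  intro w hw
  have hw0 := hwt w (Finsupp.mem_support_iff.1 hw)
  generalize p.coeff w = r
  have hsing : (MonoidAlgebra.single w r : FA k I) = r • MonoidAlgebra.of k _ w := by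
    rw [MonoidAlgebra.of_apply, MonoidAlgebra.smul_single, smul_eq_mul, mul_one]
  rw [hsing]
  refine Subalgebra.smul_mem _ ?_ r
  clear hw hsing h2
  induction w using FreeMonoid.inductionOn' with
  | one => rw [map_one]; exact Subalgebra.one_mem _
  | of_mul i w ih =>
    have hw : wt v (FreeMonoid.of i * w) = v i + wt v w := by simp [wt]
    rw [hw] at hw0
    rw [map_mul]
    refine Subalgebra.mul_mem _ ?_ (ih (by omega))
    refine Algebra.subset_adjoin ⟨i, ?_, rfl⟩
    show v i = 0
    omega

end Pool.Agent.A55u.H50
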