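import Pool.Agent.Lib.MP_a55e6f_al.Uni.H50.LLAD

/-!
Module WA of MP_a55e6f_al: the weak algorithm in a free algebra.
-/

set_option autoImplicit false

universe u

attribute [local instance 100] LieRing.ofAssociativeRing

namespace Pool.Agent.A55u.H50

open scoped Classical

section main
variable {k J : Type u} [Field k]

theorem len_add : IsAdd (FreeMonoid.length : FreeMonoid J → ℕ) :=
  ⟨FreeMonoid.length_one, FreeMonoid.length_mul⟩

/-- the right cofactor map `p ↦ ∑ p(w w0) w` -/
noncomputable def cofFun (w0 : FreeMonoid J) (p : FA k J) : FA k J :=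
  .ofCoeff (p.coeff.comapDomain (fun w => w * w0) (fun _ _ _ _ h => mul_right_cancel h))

theorem cofFun_coeff (w0 : FreeMonoid J) (p : FA k J) (w : FreeMonoid J) :
    (cofFun w0 p).coeff w = p.coeff (w * w0) := rfl

/-- the right cofactor map `p ↦ ∑ p(w w0) w` -/
noncomputable def cof (w0 : FreeMonoid J) : FA k J →ₗ[k] FA k J where
  toFun p := cofFun w0 p
  map_add' p q := by
    apply MonoidAlgebra.coeff_injective
    ext w
    simp [cofFun_coeff]
  map_smul' r p := by
    apply MonoidAlgebra.coeff_injective
    ext w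
    simp [cofFun_coeff]

theorem cof_coeff (w0 : FreeMonoid J) (p : FA k J) (w : FreeMonoid J) :
    (cof w0 p).coeff w = p.coeff (w * w0) := rfl

theorem single_mul_coeff (a : FreeMonoid J) (r : k) (q : FA k J) (y : FreeMonoid J) :
    (MonoidAlgebra.single a r * q).coeff (a * y) = r * q.coeff y := by
  induction q using MonoidAlgebra.induction_linear with
  | zero => simp
  | add f g hf hg =>
    rw [mul_add, MonoidAlgebra.coeff_add, Finsupp.add_apply, hf, hg, MonoidAlgebra.coeff_add,
      Finsupp.add_apply, mul_add]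
  | single v s =>
    rw [MonoidAlgebra.single_mul_single, MonoidAlgebra.coeff_single, MonoidAlgebra.coeff_single,
      Finsupp.single_apply, Finsupp.single_apply]
    by_cases h : v = y
    · subst h; simp
    · rw [if_neg, if_neg h, mul_zero]
      intro h'
      exact h (mul_left_cancel h')

theorem single_mul_coeff_zero (a : FreeMonoid J) (r : k) (q : FA k J) (w : FreeMonoid J)
    (h : ∀ y, a * y ≠ w ∨ q.coeff y = 0) : (MonoidAlgebra.single a r * q).coeff w = 0 := by
  by_contra hne
  obtain ⟨u, v, hu, hv, huv⟩ := coeff_mul_ne hne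
  have : u = a := by
    by_contra hne'
    rw [MonoidAlgebra.coeff_single, Finsupp.single_eq_of_ne hne'] at hu
    exact hu rfl
  subst this
  rcases h v with h | h
  · exact h huv
  · exact hv h

/-- a word `w * w0 = a * y` with `|w0| ≤ |y|` -/
theorem word_split {w w0 a y : FreeMonoid J} (h : w * w0 = a * y) (hl : w0.length ≤ y.length) :
    ∃ y', y = y' * w0 ∧ w = a * y' := by
  have h1 : w.toList ++ w0.toList = a.toList ++ y.toList := by
    have := congrArg FreeMonoid.toList h
    rwa [FreeMonoid.toList_mul, FreeMonoid.toList_mul] at this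
  rcases List.append_eq_append_iff.1 h1 with ⟨l, h2, h3⟩ | ⟨l, h2, h3⟩
  · have h4 : w0.toList.length ≤ y.toList.length := hl
    have h5 : l = [] := by
      rw [h3, List.length_append] at h4
      exact List.length_eq_zero_iff.1 (by omega)
    subst h5
    refine ⟨1, ?_, ?_⟩
    · rw [one_mul]
      apply FreeMonoid.toList.injective
      simpa using h3.symm
    · rw [mul_one]
      apply FreeMonoid.toList.injective
      simpa using h2.symm
  · refine ⟨FreeMonoid.ofList l, ?_, ?_⟩
    · apply FreeMonoid.toList.injective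
      rw [FreeMonoid.toList_mul, h3]
      rfl
    · apply FreeMonoid.toList.injective
      rw [FreeMonoid.toList_mul, h2]
      rfl

theorem cof_mul (w0 : FreeMonoid J) (u q : FA k J)
    (hq : ∀ w, q.coeff w ≠ 0 → w0.length ≤ w.length) : cof w0 (u * q) = u * cof w0 q := by
  induction u using MonoidAlgebra.induction_linear with
  | zero => rw [zero_mul, zero_mul, map_zero]
  | add f g hf hg => rw [add_mul, map_add, hf, hg, add_mul]
  | single a r =>
    apply MonoidAlgebra.coeff_injective
    ext w
    rw [cof_coeff]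
    by_cases h : ∃ y, a * y = w
    · obtain ⟨y, rfl⟩ := h
      rw [mul_assoc, single_mul_coeff, single_mul_coeff, cof_coeff]
    · push Not at h
      rw [single_mul_coeff_zero, single_mul_coeff_zero]
      · intro y; exact Or.inl (h y)
      · intro y
        by_contra hne
        push Not at hne
        obtain ⟨h1, h2⟩ := hne
        obtain ⟨y', hy', hw⟩ := word_split h1.symm (hq y h2)
        exact h y' hw.symm

theorem hom_cof {w0 : FreeMonoid J} {q : FA k J} {n : ℕ} (hq : Hom FreeMonoid.length n q) :
    Hom FreeMonoid.length (n - w0.length) (cof w0 q) := by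
  intro w hw
  rw [cof_coeff] at hw
  have := hq _ hw
  rw [FreeMonoid.length_mul] at this
  omega

theorem dg_lt {u v : FA k J} (hu : u ≠ 0)
    (hv : ∀ w, v.coeff w ≠ 0 → w.length < degOf FreeMonoid.length u) : dg v < dg u := by
  have h1 : dg v ≤ degOf FreeMonoid.length u := by
    unfold dg
    apply Finset.sup_le
    intro w hw
    exact hv w (Finsupp.mem_support_iff.1 hw)
  have hs : u.coeff.support.Nonempty := by
    rw [Finsupp.support_nonempty_iff]
    simpa using hu
  obtain ⟨w, hw, hw'⟩ := Finset.exists_mem_eq_sup u.coeff.support hs FreeMonoid.length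
  have h2 : w.length + 1 ≤ dg u := Finset.le_sup (f := fun w : FreeMonoid J => w.length + 1) hw
  have h3 : degOf FreeMonoid.length u = w.length := hw'
  omega

end main

/-- WA -/
theorem wa : WAStatement.{u} := by
  intro k J _ m u q hsum hex
  let z : FreeMonoid J → ℕ := FreeMonoid.length
  have hz : IsAdd z := len_add
  set S : Finset (Fin m) := Finset.univ.filter (fun i => u i ≠ 0 ∧ q i ≠ 0) with hS
  have hmemS : ∀ i, i ∈ S ↔ u i ≠ 0 ∧ q i ≠ 0 := by intro i; simp [hS]
  have hSne : S.Nonempty := by
    obtain ⟨i, hi⟩ := hex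
    exact ⟨i, (hmemS i).2 hi⟩
  set n := S.sup (fun i => degOf z (u i) + degOf z (q i)) with hn
  set I : Finset (Fin m) := S.filter (fun i => degOf z (u i) + degOf z (q i) = n) with hI
  have hmemI : ∀ i, i ∈ I ↔ i ∈ S ∧ degOf z (u i) + degOf z (q i) = n := by
    intro i; simp [hI]
  have hIne : I.Nonempty := by
    obtain ⟨i, hi, hi'⟩ := Finset.exists_mem_eq_sup S hSne
      (fun i => degOf z (u i) + degOf z (q i))
    exact ⟨i, (hmemI i).2 ⟨hi, hi'.symm⟩⟩
  obtain ⟨i0, hi0, hmax⟩ := Finset.exists_max_image I (fun i => degOf z (u i)) hIne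
  set D := degOf z (u i0) with hD
  set r := degOf z (q i0) with hr
  have hi0' := (hmemI i0).1 hi0
  have hi0S := (hmemS i0).1 hi0'.1
  have hDr : D + r = n := hi0'.2
  have hle : ∀ i ∈ S, degOf z (u i) + degOf z (q i) ≤ n := fun i hi =>
    Finset.le_sup (f := fun i => degOf z (u i) + degOf z (q i)) hi
  -- the top component of the relation
  have htop : ∑ i ∈ I, comp z (degOf z (u i)) (u i) * comp z (degOf z (q i)) (q i) = 0 := by
    have h1 : ∑ i, comp z n (u i * q i) = 0 := by
      rw [← map_sum, hsum, map_zero]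
    rw [← h1]
    symm
    rw [← Finset.sum_subset (Finset.subset_univ I)]
    · refine Finset.sum_congr rfl ?_
      intro i hi
      rw [← ((hmemI i).1 hi).2]
      exact comp_mul hz (le_degOf z (u i)) (le_degOf z (q i))
    · intro i _ hi
      by_cases hiS : i ∈ S
      · have h2 := hle i hiS
        have h3 : degOf z (u i) + degOf z (q i) ≠ n := fun h => hi ((hmemI i).2 ⟨hiS, h⟩)
        apply comp_eq_zero
        intro w hw
        have h4 := ((le_degOf z (u i)).mul hz (le_degOf z (q i))) w hw
        omega
      · rw [hmemS] at hiS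
        have : u i * q i = 0 := by
          by_cases h2 : u i = 0
          · rw [h2, zero_mul]
          · have h3 : q i = 0 := by
              by_contra h3
              exact hiS ⟨h2, h3⟩
            rw [h3, mul_zero]
        rw [this, map_zero]
  -- a word of the top form of `q i0`
  have hw0 : ∃ w0, (comp z r (q i0)).coeff w0 ≠ 0 := by
    by_contra hne
    push Not at hne
    apply comp_degOf_ne (z := z) hi0S.2
    apply MonoidAlgebra.coeff_injective
    ext w
    rw [hne w]
    simp
  obtain ⟨w0, hw0⟩ := hw0
  set c := (comp z r (q i0)).coeff w0 with hc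
  have hlen0 : w0.length = r := hom_comp z r (q i0) w0 hw0
  have hdq : ∀ i ∈ I, r ≤ degOf z (q i) ∧ degOf z (q i) - r = D - degOf z (u i) ∧
      degOf z (u i) ≤ D := by
    intro i hi
    have h1 := hmax i hi
    have h2 := ((hmemI i).1 hi).2
    omega
  have hcof : ∑ i ∈ I, comp z (degOf z (u i)) (u i) *
      cof w0 (comp z (degOf z (q i)) (q i)) = 0 := by
    have h1 := congrArg (cof (k := k) w0) htop
    rw [map_sum, map_zero] at h1
    rw [← h1]
    refine Finset.sum_congr rfl ?_
    intro i hi
    rw [cof_mul]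
    intro w hw
    have h2 : w.length = degOf z (q i) := hom_comp z _ _ w hw
    rw [hlen0, h2]
    exact (hdq i hi).1
  have hcof0 : cof w0 (comp z r (q i0)) = c • (1 : FA k J) := by
    apply MonoidAlgebra.coeff_injective
    ext w
    rw [cof_coeff, MonoidAlgebra.coeff_smul, Finsupp.smul_apply, MonoidAlgebra.one_def,
      MonoidAlgebra.coeff_single, Finsupp.single_apply]
    by_cases hw : w = 1
    · subst hw
      rw [one_mul, if_pos rfl, smul_eq_mul, mul_one]
    · rw [if_neg (fun h => hw h.symm), smul_zero]
      by_contra hne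
      have h2 : (w * w0).length = r := hom_comp z _ _ _ hne
      rw [FreeMonoid.length_mul] at h2
      exact hw (FreeMonoid.length_eq_zero.1 (by omega))
  let h : Fin m → FA k J := fun i => if i ∈ I ∧ i ≠ i0 then
    (-c⁻¹) • cof w0 (comp z (degOf z (q i)) (q i)) else 0
  have hh0 : h i0 = 0 := by
    show (if i0 ∈ I ∧ i0 ≠ i0 then _ else _) = _
    rw [if_neg]
    rintro ⟨_, h⟩
    exact h rfl
  have hhI : ∀ i, i ∉ I → h i = 0 := by
    intro i hi
    show (if i ∈ I ∧ i ≠ i0 then _ else _) = _
    rw [if_neg]
    rintro ⟨h, _⟩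
    exact hi h
  have hhn : ∀ i ∈ I, i ≠ i0 → h i = (-c⁻¹) • cof w0 (comp z (degOf z (q i)) (q i)) := by
    intro i hi hne
    show (if i ∈ I ∧ i ≠ i0 then _ else _) = _
    rw [if_pos ⟨hi, hne⟩]
  have hhom : ∀ i ∈ I, Hom z (D - degOf z (u i)) (h i) := by
    intro i hi
    by_cases hne : i = i0
    · rw [hne, hh0]
      intro w hw
      simp at hw
    · rw [hhn i hi hne]
      rw [← (hdq i hi).2.1, ← hlen0]
      intro w hw
      refine hom_cof (hom_comp z (degOf z (q i)) (q i)) w ?_
      intro h0
      apply hw
      rw [MonoidAlgebra.coeff_smul, Finsupp.smul_apply, h0, smul_zero]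
  -- the sum of the top forms
  have hsumI : ∑ i ∈ I, comp z (degOf z (u i)) (u i) * h i = comp z D (u i0) := by
    have h1 : ∑ i ∈ I, comp z (degOf z (u i)) (u i) * h i =
        (-c⁻¹) • ∑ i ∈ I.erase i0, comp z (degOf z (u i)) (u i) *
          cof w0 (comp z (degOf z (q i)) (q i)) := by
      rw [← Finset.add_sum_erase I _ hi0, hh0, mul_zero, zero_add, Finset.smul_sum]
      refine Finset.sum_congr rfl ?_
      intro i hi
      rw [Finset.mem_erase] at hi
      rw [hhn i hi.2 hi.1, mul_smul_comm]
    rw [← Finset.add_sum_erase I _ hi0] at hcof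
    rw [h1, ← neg_eq_of_add_eq_zero_right hcof]
    rw [show degOf z (q i0) = r from rfl, hcof0, mul_smul_comm, mul_one, neg_smul, smul_neg, neg_neg,
      smul_smul, inv_mul_cancel₀ hw0, one_smul]
  refine ⟨i0, h, hh0, ?_, ?_⟩
  · intro i hi
    apply hhI
    intro hiI
    exact ((hmemS i).1 ((hmemI i).1 hiI).1).1 hi
  · have hred : ∑ i, u i * h i = ∑ i ∈ I, u i * h i := by
      symm
      apply Finset.sum_subset (Finset.subset_univ I)
      intro i _ hi
      rw [hhI i hi, mul_zero]
    rw [hred]
    have hLe : ∀ i ∈ I, Le z D (u i * h i) ∧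
        comp z D (u i * h i) = comp z (degOf z (u i)) (u i) * h i := by
      intro i hi
      have h1 : degOf z (u i) + (D - degOf z (u i)) = D := by
        have := (hdq i hi).2.2
        omega
      have h2 : Le z (D - degOf z (u i)) (h i) := by
        intro w hw
        rw [hhom i hi w hw]
      have h3 := (le_degOf z (u i)).mul hz h2
      have h4 := comp_mul hz (le_degOf z (u i)) h2
      rw [h1] at h3 h4
      rw [comp_of_hom (hhom i hi)] at h4
      exact ⟨h3, h4⟩
    apply dg_lt hi0S.1
    have hLe' : Le z D (u i0 - ∑ i ∈ I, u i * h i) := by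
      apply Le.sub (le_degOf z (u i0))
      apply Le.sum
      intro i hi
      exact (hLe i hi).1
    have hcomp : comp z D (u i0 - ∑ i ∈ I, u i * h i) = 0 := by
      rw [map_sub, map_sum, Finset.sum_congr rfl (fun i hi => (hLe i hi).2), hsumI, sub_self]
    intro w hw
    have h5 := hLe' w hw
    refine lt_of_le_of_ne h5 ?_
    intro h6
    have h7 : (comp z D (u i0 - ∑ i ∈ I, u i * h i)).coeff w =
        (u i0 - ∑ i ∈ I, u i * h i).coeff w := by
      rw [comp_coeff, if_pos h6]
    rw [hcomp] at h7
    apply hw
    rw [← h7]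
    simp

end Pool.Agent.A55u.H50
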